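import Pool.Agent.SCT.StmtsC
import Pool.Agent.Helper64_CUB.Red

/-!
# Squad SCT, row TRR: the transcendence degree does not grow under reduction
-/

set_option autoImplicit false

namespace Pool.Agent.SCT.H17

open MvPolynomial Pool.Agent.SCT

section

variable {E F' Ω Ω' : Type} [Field E] [Field F'] [Field Ω] [Field Ω'] [Algebra E Ω]
  [Algebra F' Ω'] (V : ValuationSubring E) (π : V →+* F') (W : ValuationSubring Ω)
  (ρ : W →+* Ω')

/-- Algebraic independence of the reductions implies algebraic independence. -/
theorem indep_lift (κ : V →+* W) (h1 : ∀ a : V, (κ a : Ω) = algebraMap E Ω a)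
    (h2 : ∀ a : V, ρ (κ a) = algebraMap F' Ω' (π a)) {t : Type} (w : t → W)
    (hw : AlgebraicIndependent F' (fun i => ρ (w i))) :
    AlgebraicIndependent E (fun i => (w i : Ω)) := by
  rw [algebraicIndependent_iff]
  intro p hp
  by_contra hp0
  obtain ⟨s, hs0, g', hg', i0, d0, hd0⟩ := Pool.Agent.CUB.H64.prim V (fun _ : Unit => p) (by
    intro h
    exact hp0 (congrFun h ()))
  have hg := hg' ()
  have e1 : (eval₂ κ w (g' ()) : W) = 0 := by
    apply Subtype.ext
    have h3 : W.subtype (eval₂ κ w (g' ())) =
        eval₂ (W.subtype.comp κ) (fun i => W.subtype (w i)) (g' ()) := hom_eval₂ _ _ _ _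
    have h4 : W.subtype.comp κ = (algebraMap E Ω).comp V.subtype := by
      ext a
      exact h1 a
    rw [h4] at h3
    have h5 : eval₂ ((algebraMap E Ω).comp V.subtype) (fun i => W.subtype (w i)) (g' ()) =
        aeval (fun i => (w i : Ω)) (map V.subtype (g' ())) := by
      rw [aeval_def, eval₂_map]
      rfl
    rw [h5, hg, map_mul, hp, mul_zero] at h3
    exact h3
  have e2 : aeval (fun i => ρ (w i)) (map π (g' ())) = 0 := by
    have h3 : ρ (eval₂ κ w (g' ())) = eval₂ (ρ.comp κ) (fun i => ρ (w i)) (g' ()) :=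
      hom_eval₂ _ _ _ _
    have h4 : ρ.comp κ = (algebraMap F' Ω').comp π := by
      ext a
      exact h2 a
    rw [e1, map_zero, h4] at h3
    rw [aeval_def, eval₂_map]
    exact h3.symm
  have e3 := (algebraicIndependent_iff.1 hw) _ e2
  have e4 := congrArg (coeff d0) e3
  rw [coeff_map, hd0, map_one, coeff_zero] at e4
  exact one_ne_zero e4

end

/-- A generating family of a field contains a transcendence basis. -/
theorem exists_basis {F' Ω' ι : Type} [Field F'] [Field Ω'] [Algebra F' Ω'] (y : ι → Ω') :
    ∃ (t : Type) (j : t → ι), AlgebraicIndependent F' (fun a => y (j a)) ∧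
      Cardinal.mk t = Algebra.trdeg F' (IntermediateField.adjoin F' (Set.range y)) := by
  set K := IntermediateField.adjoin F' (Set.range y) with hK
  have hy : ∀ i, y i ∈ K := fun i => IntermediateField.subset_adjoin F' _ ⟨i, rfl⟩
  let y' : ι → K := fun i => ⟨y i, hy i⟩
  have htop : IntermediateField.adjoin F' (Set.range y') = ⊤ := by
    apply IntermediateField.lift_injective K
    rw [IntermediateField.lift_adjoin, IntermediateField.lift_top, ← Set.range_comp]
    exact hK.symm
  have halg : Algebra.IsAlgebraic (Algebra.adjoin F' (Set.range y')) K := by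
    rw [← IntermediateField.isAlgebraic_adjoin_iff_top, htop, Algebra.isAlgebraic_iff_isIntegral]
    exact Algebra.isIntegral_of_surjective IntermediateField.topEquiv.surjective
  obtain ⟨t, hts, ht⟩ := exists_isTranscendenceBasis_subset (R := F') (Set.range y')
  choose j hj using fun a : t => hts a.2
  refine ⟨t, j, ?_, ht.cardinalMk_eq_trdeg⟩
  have h1 := ht.1
  have h2 : AlgebraicIndependent F' (fun a : t => K.val (a : K)) :=
    h1.map' K.val.injective
  have h3 : (fun a : t => K.val (a : K)) = fun a => y (j a) := by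
    funext a
    rw [← hj a]
    rfl
  rwa [h3] at h2

theorem trr : TrrStmt := by
  intro E F' Ω Ω' _ _ _ _ _ _ V π W ρ ι z d _ _ hκ hd
  have hmem : ∀ a : V, ((algebraMap E Ω).comp V.subtype) a ∈ W.toSubring := by
    intro a
    obtain ⟨b, hb, _⟩ := hκ a
    have h : ((algebraMap E Ω).comp V.subtype) a = (b : Ω) := hb.symm
    rw [h]
    exact b.2
  let κ : V →+* W := ((algebraMap E Ω).comp V.subtype).codRestrict W.toSubring hmem
  have h1 : ∀ a : V, (κ a : Ω) = algebraMap E Ω a := fun a => rfl
  have h2 : ∀ a : V, ρ (κ a) = algebraMap F' Ω' (π a) := by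
    intro a
    obtain ⟨b, hb, hb'⟩ := hκ a
    have h : κ a = b := Subtype.ext hb.symm
    rw [h, hb']
  obtain ⟨t, j, hj, hcard⟩ := exists_basis (F' := F') (fun i => ρ (z i))
  rw [← hcard]
  refine le_trans ?_ hd
  have h3 := indep_lift V π W ρ κ h1 h2 (fun a => z (j a)) hj
  set K := IntermediateField.adjoin E (Set.range fun i => (z i : Ω)) with hK
  have hy : ∀ i, (z i : Ω) ∈ K := fun i => IntermediateField.subset_adjoin E _ ⟨i, rfl⟩
  have h4 : AlgebraicIndependent E (fun a : t => (⟨z (j a), hy (j a)⟩ : K)) := by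
    refine AlgebraicIndependent.of_comp K.val ?_
    exact h3
  exact h4.cardinalMk_le_trdeg

end Pool.Agent.SCT.H17
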